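import Pool.Agent.W2helper5.QD.Main
import Pool.Agent.W2helper5.QD.Psym
import Pool.Agent.W2helper5.QD.T2
import Pool.Agent.W2helper11.QD.Luall
import Pool.Agent.W2helper11.QD.Neg
import Pool.Agent.W2helper17.QD.Basic
import Pool.Agent.W2helper17.QD.Sim
import Pool.Agent.W2helper19.QD.Cn
import Pool.Agent.W2helper35.QD.Negt
import Pool.Agent.W2helper49.QD.Symg
import Pool.Agent.W2helper49.QD.Uc
import Pool.Agent.W2helper50.QD.Band
import Pool.Agent.W2helper51.QD.T1
import Pool.Agent.W2helper53.QD.Wv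
import Pool.Agent.W2helper53.QD.Lu
import Pool.Agent.W2helper69.QD.Nb
import Pool.Agent.W2helper77.QD.Bis
import Pool.Agent.W2helper85.QD.Bij
import Pool.Agent.W2helper88.QD.Count
import Pool.Agent.W2helper88.QD.Top
import Pool.Agent.W2helper98.QD.Hull
import Pool.Agent.W4helper65.QD.Reg

namespace Pool.Agent.Results.MP_79dd7e_co.NearRegular

open MeasureTheory Set

/-- The Euclidean plane. -/
abbrev Plane := EuclideanSpace ℝ (Fin 2)

/-- Rotation of a vector by a right angle. -/
noncomputable def rot (u : Plane) : Plane := !₂[-u 1, u 0]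

/-- The line through `P` with direction `u`. -/
def line (P u : Plane) : Set Plane := {x | ∃ s : ℝ, x = P + s • u}

/-- The closed quadrant with apex `P` spanned by the perpendicular vectors `u` and `rot u`. -/
def quad (P u : Plane) : Set Plane := {x | ∃ a b : ℝ, 0 ≤ a ∧ 0 ≤ b ∧ x = P + a • u + b • rot u}

/-- `q` is a quadrisection of `R`: an unordered pair of perpendicular lines meeting at an interior
point `P` of `R`, such that each of the four closed quadrants they bound (they are
`quad P u`, `quad P (rot u)`, `quad P (rot (rot u))`, `quad P (rot (rot (rot u)))`) meets `R` in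
area `|R| / 4`. -/
def IsQuadrisection (R : Set Plane) (q : Set (Set Plane)) : Prop :=
  ∃ P u : Plane, P ∈ interior R ∧ u ≠ 0 ∧ q = {line P u, line P (rot u)} ∧
    ∀ k : ℕ, volume (R ∩ quad P (rot^[k] u)) = volume R / 4

/-- `R` is a convex `m`-gon: the convex hull of finitely many points, with exactly `m` vertices
(extreme points) and nonempty interior. -/
def IsGon (m : ℕ) (R : Set Plane) : Prop :=
  (∃ V : Set Plane, V.Finite ∧ R = convexHull ℝ V) ∧ (R.extremePoints ℝ).ncard = m ∧
    (interior R).Nonempty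

/-- The number `q(R)` of quadrisections of `R`, possibly infinite. -/
noncomputable def numQuad (R : Set Plane) : ℕ∞ := {q | IsQuadrisection R q}.encard

/-- The vertex `w_k = (cos (2πk/m), sin (2πk/m))` of the regular `m`-gon. -/
noncomputable def regVertex (m k : ℕ) : Plane :=
  !₂[Real.cos (2 * Real.pi * k / m), Real.sin (2 * Real.pi * k / m)]

/-- `R` is `ε`-close to the regular `m`-gon: for some similarity `f` of the plane (of ratio
`r > 0`) the vertices of `f '' R`, i.e. the images under `f` of the vertices of `R`, can be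
labelled `v 0, …, v (m-1)` with `|v k - w_k| < ε` for all `k`. -/
def IsCloseToRegular (m : ℕ) (ε : ℝ) (R : Set Plane) : Prop :=
  ∃ (f : Plane → Plane) (r : ℝ) (v : Fin m → Plane), 0 < r ∧
    (∀ x y, dist (f x) (f y) = r * dist x y) ∧ range v = f '' (R.extremePoints ℝ) ∧
    ∀ k : Fin m, dist (v k) (regVertex m k) < ε

/-- Q2, full answer: for every `n ≥ 2` there is `ε > 0` such that every convex `(2n+1)`-gon that
is `ε`-close to the regular `(2n+1)`-gon has exactly `2n+1` quadrisections. -/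
theorem result (n : ℕ) (hn : 2 ≤ n) : ∃ ε : ℝ, 0 < ε ∧ ∀ R : Set Plane,
    IsGon (2 * n + 1) R → IsCloseToRegular (2 * n + 1) ε R →
      numQuad R = ((2 * n + 1 : ℕ) : ℕ∞) := by
  obtain ⟨ε, hε, h⟩ := Pool.Agent.W2helper5.QD.main
    Pool.Agent.W2helper17.QD.BASIC Pool.Agent.W2helper85.QD.BIJ Pool.Agent.W2helper17.QD.SIM
    Pool.Agent.W2helper98.QD.HULL Pool.Agent.W4helper65.QD.REG Pool.Agent.W2helper69.QD.NB
    Pool.Agent.W2helper49.QD.S.SYMG Pool.Agent.W2helper5.QD.PSYM Pool.Agent.W2helper19.QD.CNU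
    Pool.Agent.W2helper19.QD.CNL Pool.Agent.W2helper51.QD.T1 Pool.Agent.W2helper5.QD.T2
    Pool.Agent.W2helper77.QD.BIS Pool.Agent.W2helper88.QD.TOP Pool.Agent.W2helper35.QD.NEGT
    Pool.Agent.W2helper11.QD.DEC Pool.Agent.W2helper11.QD.NEG Pool.Agent.W2helper53.QD.WV
    Pool.Agent.W2helper50.QD.p_BAND Pool.Agent.W2helper49.QD.UC Pool.Agent.W2helper53.QD.LU
    Pool.Agent.W2helper11.QD.LUALL Pool.Agent.W2helper88.QD.COUNT (2 * n + 1)
    (by omega) (by omega)
  refine ⟨ε, hε, ?_⟩
  rintro R hR ⟨f, r, v, hr, hf, hv, hc⟩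
  refine h R f r v hR hr hf hv ?_
  intro k
  have e : Pool.Agent.W2helper5.QD.w (2 * n + 1) (((k : ℕ)) : ℤ) = regVertex (2 * n + 1) k := by
    unfold Pool.Agent.W2helper5.QD.w Pool.Agent.W2helper5.QD.e Pool.Agent.W2helper5.QD.al regVertex
    have : (2 * (((k : ℕ) : ℤ) : ℝ) * (Real.pi / ((2 * n + 1 : ℕ) : ℝ)) : ℝ) =
        2 * Real.pi * ((k : ℕ) : ℝ) / ((2 * n + 1 : ℕ) : ℝ) := by
      push_cast; ring
    rw [this]
  rw [e]
  exact hc k

end Pool.Agent.Results.MP_79dd7e_co.NearRegular
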